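import Pool.Agent.Q250.PS.Final

/-!
# Primitive sets under the weightings `m ^ (-σ)`: the maximal density decreases strictly in `σ`

For all real `0 ≤ σ₁ < σ₂ ≤ 1` and all large `n` the largest density of a primitive subset of `[n]`
for the weighting `m ^ (-σ₁)` is larger than the one for the weighting `m ^ (-σ₂)`.

Outline. (1) Let `P σ n` be the largest weight of a primitive subset of `[n]`, `σ < 1`. The elements in
`(n / N, n]` of a primitive set are analysed in the fibres over their parts `r` without prime factors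
below `N`; the fibres are independent of each other, and the largest weight of a fibre depends only on
`⌊n / r⌋`. Since the numbers `r` are periodic, `P σ n / n ^ (1 - σ)` converges.
(2) Local form of Behrend's theorem: for a primitive subset `A` of `(n / K, n]` the sum of the
reciprocals is at most `ε log K` (`K ≥ K (ε)` fixed, `n ≥ n (K)`). This follows from Sperner's theorem
in the fibres, after the exponents of the primes have been written as random variables which contain
a random bit with a suitable probability.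
(3) Partial summation: the weight for `σ₂` is an average of the weights for `σ₁` of `A ∩ [t]`, `t ≤ n`;
by (1) none of these is essentially larger than the maximum, and by (2) some are much smaller.
-/

set_option autoImplicit false

open Finset

namespace Pool.Agent.Results.MP_def192_nt.PowerWeightings

/-- No element of `A` divides a different element of `A`. -/
def Primitive (A : Finset ℕ) : Prop := ∀ a ∈ A, ∀ b ∈ A, a ∣ b → a = b

/-- `S(f, A) = ∑ a ∈ A, f a` -/
noncomputable def S (f : ℕ → ℝ) (A : Finset ℕ) : ℝ := ∑ a ∈ A, f a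

/-- `δ(f, A, n) = S(f, A) / S(f, [n])` -/
noncomputable def δ (f : ℕ → ℝ) (A : Finset ℕ) (n : ℕ) : ℝ := S f A / S f (Icc 1 n)

open Classical in
/-- `F(f, n)`: the maximum of `δ(f, A, n)` over the primitive subsets `A` of `[n]` -/
noncomputable def F (f : ℕ → ℝ) (n : ℕ) : ℝ :=
  ((Icc 1 n).powerset.filter Primitive).sup' ⟨∅, by simp [Primitive]⟩ (fun A => δ f A n)

/-- the weighting `m ^ (-σ)` -/
noncomputable def weighting (σ : ℝ) (m : ℕ) : ℝ := (m : ℝ) ^ (-σ)

theorem F_eq (σ : ℝ) (n : ℕ) (hn : 0 < n) :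
    F (weighting σ) n = Pool.Agent.Q250.PS.P σ n / Pool.Agent.Q250.PS.W σ n := by
  classical
  have hW : 0 < Pool.Agent.Q250.PS.W σ n := by
    have h1 := Pool.Agent.Q250.PS.W_mono σ (show 1 ≤ n from hn)
    have h3 : Pool.Agent.Q250.PS.W σ 1 = 1 := by
      simp [Pool.Agent.Q250.PS.W, Pool.Agent.Q250.PS.w_one]
    linarith
  apply le_antisymm
  · unfold F
    apply sup'_le
    intro A hA
    rw [mem_filter, mem_powerset] at hA
    exact div_le_div_of_nonneg_right (Pool.Agent.Q250.PS.le_Mx hA.1 hA.2 _) hW.le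
  · obtain ⟨A, hA, hP, h⟩ := Pool.Agent.Q250.PS.exists_Mx (Icc 1 n) (Pool.Agent.Q250.PS.w σ)
    unfold Pool.Agent.Q250.PS.P
    rw [h]
    unfold F
    exact le_sup' (fun A => δ (weighting σ) A n) (mem_filter.2 ⟨mem_powerset.2 hA, hP⟩)

/-- **Theorem.** For all real `0 ≤ σ₁ < σ₂ ≤ 1` there is `n₀` such that
`F(f_σ₁, n) > F(f_σ₂, n)` for all `n > n₀`. -/
theorem result (σ₁ σ₂ : ℝ) (h0 : 0 ≤ σ₁) (h12 : σ₁ < σ₂) (h2 : σ₂ ≤ 1) :
    ∃ n₀ : ℕ, ∀ n : ℕ, n₀ < n → F (weighting σ₁) n > F (weighting σ₂) n := by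
  rcases lt_or_eq_of_le h2 with h | h
  · obtain ⟨n₀, hn₀⟩ := Pool.Agent.Q250.PS.main_lt h0 h12 h
    refine ⟨n₀, fun n hn => ?_⟩
    rw [F_eq σ₁ n (by omega), F_eq σ₂ n (by omega)]
    exact hn₀ n hn
  · subst h
    obtain ⟨n₀, hn₀⟩ := Pool.Agent.Q250.PS.main_one h0 h12
    refine ⟨n₀, fun n hn => ?_⟩
    rw [F_eq σ₁ n (by omega), F_eq 1 n (by omega)]
    exact hn₀ n hn

end Pool.Agent.Results.MP_def192_nt.PowerWeightings
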